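import Mathlib

/-!
# The `p`-adic Tate module of an abelian group
-/

set_option autoImplicit false
set_option linter.unusedSectionVars false

namespace Pool.Agent.R931.TM

open scoped TensorProduct

/-- The `p`-adic Tate module `T_p(M) = lim M[p ^ n]` of an abelian group `M`: its elements are the
sequences `x 0 = 0, x 1, x 2, ...` of elements of `M` with `p x (n + 1) = x n`. -/
structure TateModule (p : ℕ) (M : Type) [AddCommGroup M] where
  /-- the sequence -/
  seq : ℕ → M
  seq_zero : seq 0 = 0
  seq_succ : ∀ n, p • seq (n + 1) = seq n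

namespace TateModule

variable {p : ℕ} {M : Type} [AddCommGroup M]

theorem ext' {x y : TateModule p M} (h : ∀ n, x.seq n = y.seq n) : x = y := by
  obtain ⟨x, _, _⟩ := x
  obtain ⟨y, _, _⟩ := y
  have : x = y := funext h
  subst this
  rfl

theorem tors (x : TateModule p M) (n : ℕ) : (p ^ n) • x.seq n = 0 := by
  induction n with
  | zero => simpa using x.seq_zero
  | succ n ih => rw [pow_succ, mul_smul, x.seq_succ n, ih]

theorem add_succ (x y : TateModule p M) (n : ℕ) :
    p • (x.seq (n + 1) + y.seq (n + 1)) = x.seq n + y.seq n := by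
  rw [smul_add, x.seq_succ, y.seq_succ]

theorem neg_succ (x : TateModule p M) (n : ℕ) : p • (-x.seq (n + 1)) = -x.seq n := by
  rw [smul_neg, x.seq_succ]

theorem add_zero' (x y : TateModule p M) : x.seq 0 + y.seq 0 = 0 := by
  rw [x.seq_zero, y.seq_zero, add_zero]

theorem neg_zero' (x : TateModule p M) : -x.seq 0 = 0 := by
  rw [x.seq_zero, neg_zero]

instance : Add (TateModule p M) := ⟨fun x y => ⟨fun n => x.seq n + y.seq n, add_zero' x y, add_succ x y⟩⟩
instance : Zero (TateModule p M) := ⟨⟨fun _ => 0, rfl, fun _ => smul_zero _⟩⟩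
instance : Neg (TateModule p M) := ⟨fun x => ⟨fun n => -x.seq n, neg_zero' x, neg_succ x⟩⟩

theorem add_assoc' (x y z : TateModule p M) : x + y + z = x + (y + z) := ext' fun _ => add_assoc _ _ _
theorem zero_add'' (x : TateModule p M) : 0 + x = x := ext' fun _ => zero_add _
theorem add_zero'' (x : TateModule p M) : x + 0 = x := ext' fun _ => add_zero _
theorem neg_add' (x : TateModule p M) : -x + x = 0 := ext' fun _ => neg_add_cancel _
theorem add_comm' (x y : TateModule p M) : x + y = y + x := ext' fun _ => add_comm _ _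

/-- the addition of sequences -/
instance : AddCommGroup (TateModule p M) where
  add_assoc := add_assoc'
  zero_add := zero_add''
  add_zero := add_zero''
  neg_add_cancel := neg_add'
  add_comm := add_comm'
  nsmul := nsmulRec
  zsmul := zsmulRec

variable [Fact p.Prime]

/-- congruent integers act in the same way on `p ^ n`-torsion -/
theorem nsmul_congr {n : ℕ} {y : M} (hy : (p ^ n) • y = 0) {a b : ℕ}
    (h : (a : ZMod (p ^ n)) = (b : ZMod (p ^ n))) : a • y = b • y := by
  rw [ZMod.natCast_eq_natCast_iff] at h
  have h1 : ∀ a : ℕ, a • y = (a % (p ^ n)) • y := by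
    intro a
    conv_lhs => rw [← Nat.div_add_mod a (p ^ n)]
    rw [add_smul, mul_comm, mul_smul, hy, smul_zero, zero_add]
  rw [h1 a, h1 b, h]

/-- the natural number below `p ^ n` that is congruent to `a` modulo `p ^ n` -/
noncomputable def res (a : ℤ_[p]) (n : ℕ) : ℕ := (PadicInt.toZModPow n a).val

theorem res_cast (a : ℤ_[p]) (n : ℕ) : ((res a n : ℕ) : ZMod (p ^ n)) = PadicInt.toZModPow n a := by
  unfold res
  exact ZMod.natCast_zmod_val _

theorem res_cast_succ (a : ℤ_[p]) (n : ℕ) :
    ((res a (n + 1) : ℕ) : ZMod (p ^ n)) = PadicInt.toZModPow n a := by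
  have h := congrArg (ZMod.castHom (pow_dvd_pow p (Nat.le_succ n)) (ZMod (p ^ n)))
    (res_cast a (n + 1))
  rw [map_natCast] at h
  rw [h]
  have h2 := PadicInt.zmod_cast_comp_toZModPow (p := p) n (n + 1) (Nat.le_succ n)
  exact congrArg (fun f => f a) h2

theorem res_zero' (a : ℤ_[p]) (x : TateModule p M) : res a 0 • x.seq 0 = 0 := by
  rw [x.seq_zero, smul_zero]

theorem res_succ' (a : ℤ_[p]) (x : TateModule p M) (n : ℕ) :
    p • res a (n + 1) • x.seq (n + 1) = res a n • x.seq n := by
  rw [smul_comm, x.seq_succ n]
  exact nsmul_congr (tors x n) (by rw [res_cast_succ, res_cast])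

/-- the action of `ℤ_p` on the Tate module: `a` acts on `x n` as the natural number below `p ^ n`
congruent to `a` modulo `p ^ n` -/
noncomputable instance : SMul ℤ_[p] (TateModule p M) where
  smul a x := ⟨fun n => res a n • x.seq n, res_zero' a x, res_succ' a x⟩

theorem smul_seq (a : ℤ_[p]) (x : TateModule p M) (n : ℕ) : (a • x).seq n = res a n • x.seq n := rfl

theorem one_smul' (x : TateModule p M) : (1 : ℤ_[p]) • x = x := ext' fun n => by
  rw [smul_seq]
  conv_rhs => rw [← one_smul ℕ (x.seq n)]
  exact nsmul_congr (tors x n) (by rw [res_cast, map_one, Nat.cast_one])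

theorem mul_smul' (a b : ℤ_[p]) (x : TateModule p M) : (a * b) • x = a • b • x := ext' fun n => by
  rw [smul_seq, smul_seq, smul_seq, ← mul_smul]
  exact nsmul_congr (tors x n) (by rw [Nat.cast_mul, res_cast, res_cast, res_cast, map_mul])

theorem smul_zero' (a : ℤ_[p]) : a • (0 : TateModule p M) = 0 := ext' fun n => by
  rw [smul_seq]
  exact smul_zero _

theorem smul_add' (a : ℤ_[p]) (x y : TateModule p M) : a • (x + y) = a • x + a • y :=
  ext' fun n => smul_add _ _ _

theorem add_smul' (a b : ℤ_[p]) (x : TateModule p M) : (a + b) • x = a • x + b • x :=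
  ext' fun n => by
    change res (a + b) n • x.seq n = res a n • x.seq n + res b n • x.seq n
    rw [← add_smul]
    exact nsmul_congr (tors x n) (by rw [Nat.cast_add, res_cast, res_cast, res_cast, map_add])

theorem zero_smul' (x : TateModule p M) : (0 : ℤ_[p]) • x = 0 := ext' fun n => by
  rw [smul_seq]
  change _ = (0 : M)
  rw [← zero_smul ℕ (x.seq n)]
  exact nsmul_congr (tors x n) (by rw [res_cast, map_zero, Nat.cast_zero])

noncomputable instance : Module ℤ_[p] (TateModule p M) where
  one_smul := one_smul'
  mul_smul := mul_smul'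
  smul_zero := smul_zero'
  smul_add := smul_add'
  add_smul := add_smul'
  zero_smul := zero_smul'

variable {M' : Type} [AddCommGroup M']

theorem map_zero'' (f : M →+ M') (x : TateModule p M) : f (x.seq 0) = 0 := by
  rw [x.seq_zero, map_zero]

theorem map_succ (f : M →+ M') (x : TateModule p M) (n : ℕ) :
    p • f (x.seq (n + 1)) = f (x.seq n) := by
  rw [← map_nsmul, x.seq_succ n]

/-- the map of sequences induced by a homomorphism -/
def mapSeq (f : M →+ M') (x : TateModule p M) : TateModule p M' :=
  ⟨fun n => f (x.seq n), map_zero'' f x, map_succ f x⟩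

theorem mapSeq_add (f : M →+ M') (x y : TateModule p M) :
    mapSeq f (x + y) = mapSeq f x + mapSeq f y := ext' fun _ => map_add f _ _

theorem mapSeq_smul (f : M →+ M') (a : ℤ_[p]) (x : TateModule p M) :
    mapSeq f (a • x) = a • mapSeq f x := ext' fun _ => map_nsmul f _ _

/-- the map of Tate modules induced by a homomorphism -/
def map (f : M →+ M') : TateModule p M →ₗ[ℤ_[p]] TateModule p M' where
  toFun := mapSeq f
  map_add' := mapSeq_add f
  map_smul' := mapSeq_smul f

theorem map_seq (f : M →+ M') (x : TateModule p M) (n : ℕ) : (map f x).seq n = f (x.seq n) := rfl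

/-- an endomorphism of the Tate module from maps that are additive on torsion -/
noncomputable def mkEnd (f : ℕ → M → M)
    (hadd : ∀ n x y, (p ^ n) • x = 0 → (p ^ n) • y = 0 → f n (x + y) = f n x + f n y)
    (hcomp : ∀ n x, (p ^ (n + 1)) • x = 0 → p • f (n + 1) x = f n (p • x)) :
    TateModule p M →ₗ[ℤ_[p]] TateModule p M := by
  have hz : ∀ n, f n 0 = 0 := fun n => by
    have := hadd n 0 0 (smul_zero _) (smul_zero _)
    rw [add_zero] at this
    exact left_eq_add.1 this
  have hs : ∀ n x, (p ^ n) • x = 0 → ∀ k : ℕ, f n (k • x) = k • f n x := by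
    intro n x hx k
    induction k with
    | zero => rw [zero_smul, zero_smul, hz]
    | succ k ih =>
      rw [succ_nsmul, succ_nsmul, hadd n _ _ (by rw [smul_comm, hx, smul_zero]) hx, ih]
  exact
    { toFun := fun x => ⟨fun n => f n (x.seq n), by rw [x.seq_zero, hz], fun n => by
        rw [hcomp n _ (tors x (n + 1)), x.seq_succ n]⟩
      map_add' := fun x y => ext' fun n => hadd n _ _ (tors x n) (tors y n)
      map_smul' := fun a x => ext' fun n => hs n _ (tors x n) _ }

theorem mkEnd_seq (f : ℕ → M → M)
    (hadd : ∀ n x y, (p ^ n) • x = 0 → (p ^ n) • y = 0 → f n (x + y) = f n x + f n y)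
    (hcomp : ∀ n x, (p ^ (n + 1)) • x = 0 → p • f (n + 1) x = f n (p • x))
    (x : TateModule p M) (n : ℕ) : (mkEnd f hadd hcomp x).seq n = f n (x.seq n) := rfl

end TateModule

/-- The rational Tate module `V_p(M) = ℚ_p ⊗ T_p(M)`. -/
def RationalTateModule (p : ℕ) [Fact p.Prime] (M : Type) [AddCommGroup M] : Type :=
  ℚ_[p] ⊗[ℤ_[p]] TateModule p M

namespace RationalTateModule

variable {p : ℕ} [Fact p.Prime] {M M' M'' : Type} [AddCommGroup M] [AddCommGroup M']
  [AddCommGroup M'']

/-- the additive group -/
noncomputable instance instACG : AddCommGroup (RationalTateModule p M) :=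
  TensorProduct.addCommGroup

/-- the vector space -/
noncomputable instance instModule : Module ℚ_[p] (RationalTateModule p M) :=
  TensorProduct.leftModule

/-- the map of rational Tate modules induced by a homomorphism -/
noncomputable def map (f : M →+ M') : RationalTateModule p M →ₗ[ℚ_[p]] RationalTateModule p M' :=
  (TateModule.map f).baseChange ℚ_[p]

end RationalTateModule

end Pool.Agent.R931.TM
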