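import Pool.Agent.R931.TM.Jac

/-!
# The character `s ↦ (1 + p) ^ s` of `ℤ_p`, and an irrational `p`-adic integer
-/

set_option autoImplicit false
set_option linter.unusedSectionVars false

namespace Pool.Agent.R931.TM

variable (p : ℕ) [Fact p.Prime]

theorem tendsto_p_pow : Filter.Tendsto (fun n : ℕ => (p : ℤ_[p]) ^ n) Filter.atTop (nhds 0) := by
  apply tendsto_pow_atTop_nhds_zero_of_norm_lt_one
  rw [PadicInt.norm_p]
  exact inv_lt_one_of_one_lt₀ (by exact_mod_cast (Fact.out : p.Prime).one_lt)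

/-- `s ↦ (1 + p) ^ s` -/
noncomputable def chi : AddChar ℤ_[p] ℤ_[p] :=
  PadicInt.addChar_of_value_at_one (p : ℤ_[p]) (tendsto_p_pow p)

theorem chi_one : chi p 1 = 1 + p := by
  unfold chi
  exact PadicInt.addChar_of_value_at_one_def (tendsto_p_pow p)

theorem continuous_chi : Continuous (chi p) :=
  PadicInt.continuous_addChar_of_value_at_one (tendsto_p_pow p)

theorem chi_natCast (n : ℕ) : chi p n = (1 + p) ^ n := by
  have h := (chi p).map_nsmul_eq_pow n 1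
  rw [nsmul_one, chi_one] at h
  exact h

theorem chi_injective {s : ℤ_[p]} (hs : chi p s = 1) : s = 0 := by
  by_contra hne
  have h1 : ∀ z : ℤ_[p], chi p (z * s) = 1 := by
    intro z
    have hcl : IsClosed {z : ℤ_[p] | chi p (z * s) = 1} :=
      isClosed_eq ((continuous_chi p).comp (continuous_id.mul continuous_const)) continuous_const
    have hd : DenseRange (Nat.cast : ℕ → ℤ_[p]) := PadicInt.denseRange_natCast
    have hsub : Set.range (Nat.cast : ℕ → ℤ_[p]) ⊆ {z : ℤ_[p] | chi p (z * s) = 1} := by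
      rintro _ ⟨n, rfl⟩
      show chi p ((n : ℤ_[p]) * s) = 1
      rw [← nsmul_eq_mul, AddChar.map_nsmul_eq_pow, hs, one_pow]
    have h2 := hcl.closure_subset_iff.2 hsub
    rw [hd.closure_range] at h2
    exact h2 (Set.mem_univ z)
  obtain ⟨u, k, h2⟩ : ∃ (u : ℤ_[p]ˣ) (k : ℕ), s = u * (p : ℤ_[p]) ^ k :=
    ⟨_, _, PadicInt.unitCoeff_spec hne⟩
  have h3 := h1 ((u⁻¹ : ℤ_[p]ˣ) : ℤ_[p])
  have h4 : ((u⁻¹ : ℤ_[p]ˣ) : ℤ_[p]) * s = ((p ^ k : ℕ) : ℤ_[p]) := by
    rw [h2, ← mul_assoc, Units.inv_mul, one_mul, Nat.cast_pow]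
  rw [h4, chi_natCast] at h3
  have h5 : ((1 + p) ^ (p ^ k) : ℕ) = 1 := by
    have : (((1 + p) ^ (p ^ k) : ℕ) : ℤ_[p]) = ((1 : ℕ) : ℤ_[p]) := by
      push_cast
      exact_mod_cast h3
    exact_mod_cast this
  have hp : p.Prime := Fact.out
  have h6 : 1 < (1 + p) ^ (p ^ k) :=
    Nat.one_lt_pow (pow_ne_zero _ hp.ne_zero) (by have := hp.pos; omega)
  omega

/-- an irrational `p`-adic integer -/
theorem exists_irrational : ∃ α : ℤ_[p], ∀ a b : ℤ, (a : ℤ_[p]) * α + b = 0 → a = 0 := by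
  have h1 : Cardinal.continuum ≤ Cardinal.mk ℚ_[p] :=
    continuum_le_cardinal_of_nontriviallyNormedField ℚ_[p]
  have h2 : ∃ x : ℚ_[p], ∀ r : ℚ, (r : ℚ_[p]) ≠ x := by
    by_contra hcon
    push Not at hcon
    have hsurj : Function.Surjective (Rat.cast : ℚ → ℚ_[p]) := hcon
    have h3 : Cardinal.mk ℚ_[p] ≤ Cardinal.aleph0 := by
      have := Cardinal.mk_le_of_surjective hsurj
      exact this.trans (Cardinal.mk_le_aleph0 (α := ℚ))
    exact absurd (h1.trans h3) (not_le.2 Cardinal.aleph0_lt_continuum)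
  obtain ⟨x, hx⟩ := h2
  have hp : p.Prime := Fact.out
  -- scale into the integers
  obtain ⟨k, hk⟩ : ∃ k : ℕ, ‖(p : ℚ_[p]) ^ k * x‖ ≤ 1 := by
    have hlim : Filter.Tendsto (fun k : ℕ => ‖(p : ℚ_[p]) ^ k * x‖) Filter.atTop (nhds 0) := by
      have : Filter.Tendsto (fun k : ℕ => ‖(p : ℚ_[p])‖ ^ k * ‖x‖) Filter.atTop (nhds (0 * ‖x‖)) :=
        (tendsto_pow_atTop_nhds_zero_of_lt_one (norm_nonneg _) Padic.norm_p_lt_one).mul_const _
      rw [zero_mul] at this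
      simpa [norm_mul, norm_pow] using this
    exact ((hlim.eventually (gt_mem_nhds one_pos)).exists).imp fun k hk => hk.le
  refine ⟨⟨(p : ℚ_[p]) ^ k * x, hk⟩, fun a b hab => ?_⟩
  by_contra ha
  have h3 : (a : ℚ_[p]) * ((p : ℚ_[p]) ^ k * x) + b = 0 := by
    have := congrArg (fun z : ℤ_[p] => (z : ℚ_[p])) hab
    simp only [PadicInt.coe_add, PadicInt.coe_mul, PadicInt.coe_intCast, PadicInt.coe_zero] at this
    exact this
  have ha' : (a : ℚ_[p]) ≠ 0 := Int.cast_ne_zero.2 ha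
  have hp' : (p : ℚ_[p]) ^ k ≠ 0 := pow_ne_zero _ (Nat.cast_ne_zero.2 hp.ne_zero)
  apply hx (-(b : ℚ) / (a * p ^ k))
  push_cast
  rw [div_eq_iff (mul_ne_zero ha' hp')]
  linear_combination -h3

end Pool.Agent.R931.TM
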