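import Pool.Agent.R931.TM.Period

/-!
# A Jacobi matrix, and a system of roots of unity
-/

set_option autoImplicit false
set_option linter.unusedSectionVars false

namespace Pool.Agent.R931.TM

open TateModule

section jac

variable {R : Type} [CommRing R] {g : ℕ}

/-- the Jacobi matrix with `a` in the upper left corner and `1` beside the diagonal -/
def jac (a : R) : Matrix (Fin g) (Fin g) R := fun i j =>
  if (i : ℕ) = 0 ∧ (j : ℕ) = 0 then a else if (i : ℕ) + 1 = j ∨ (j : ℕ) + 1 = i then 1 else 0

theorem jac_symm (a : R) (i j : Fin g) : jac a i j = jac a j i := by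
  unfold jac
  simp only [and_comm, or_comm]

theorem jac_far (a : R) {i j : Fin g} (h : (j : ℕ) + 1 < i) : jac a i j = 0 := by
  unfold jac
  rw [if_neg (by omega), if_neg (by omega)]

theorem jac_next (a : R) {i j : Fin g} (h : (j : ℕ) + 1 = i) : jac a i j = 1 := by
  unfold jac
  rw [if_neg (by omega), if_pos (by omega)]

theorem jac_pow_far (a : R) (z : Fin g) (hz : (z : ℕ) = 0) (k : ℕ) (i : Fin g) (h : k < i) :
    (jac a ^ k) i z = 0 := by
  induction k generalizing i with
  | zero =>
    rw [pow_zero, Matrix.one_apply_ne]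
    intro h2; rw [h2] at h; omega
  | succ k ih =>
    rw [pow_succ', Matrix.mul_apply]
    refine Finset.sum_eq_zero fun j _ => ?_
    by_cases hj : k < j
    · rw [ih j hj, mul_zero]
    · rw [jac_far a (by omega), zero_mul]

theorem jac_pow_diag (a : R) (z : Fin g) (hz : (z : ℕ) = 0) (k : ℕ) (i : Fin g) (h : (i : ℕ) = k) :
    (jac a ^ k) i z = 1 := by
  induction k generalizing i with
  | zero =>
    have : i = z := Fin.ext (by omega)
    rw [pow_zero, this, Matrix.one_apply_eq]
  | succ k ih =>
    rw [pow_succ', Matrix.mul_apply, Finset.sum_eq_single ⟨k, by omega⟩]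
    · rw [ih ⟨k, by omega⟩ rfl, jac_next a (by simp [h]), mul_one]
    · intro j _ hj
      by_cases hj2 : k < j
      · rw [jac_pow_far a z hz k j hj2, mul_zero]
      · have : (j : ℕ) ≠ k := fun h3 => hj (Fin.ext h3)
        rw [jac_far a (by omega), zero_mul]
    · intro h; exact absurd (Finset.mem_univ _) h

/-- the powers of the Jacobi matrix, applied to the first basis vector, are independent -/
theorem jac_indep (a : R) (z : Fin g) (hz : (z : ℕ) = 0) (c : Fin g → R)
    (h : ∀ i : Fin g, ∑ k : Fin g, c k * (jac a ^ (k : ℕ)) i z = 0) : ∀ k, c k = 0 := by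
  by_contra hne
  push Not at hne
  obtain ⟨k0, hk0⟩ := hne
  let s : Finset (Fin g) := by classical exact Finset.univ.filter fun k => c k ≠ 0
  have hs : s.Nonempty := ⟨k0, by simp [s, hk0]⟩
  obtain ⟨k, hk, hmax⟩ := s.exists_max_image (fun k => (k : ℕ)) hs
  have hck : c k ≠ 0 := by simpa [s] using hk
  apply hck
  have h1 := h k
  rw [Finset.sum_eq_single k, jac_pow_diag a z hz _ _ rfl, mul_one] at h1
  · exact h1
  · intro j _ hj
    by_cases hcj : c j = 0
    · rw [hcj, zero_mul]
    · have h2 : (j : ℕ) ≤ k := hmax j (by simp [s, hcj])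
      have h3 : (j : ℕ) ≠ k := fun h3 => hj (Fin.ext h3)
      rw [jac_pow_far a z hz _ _ (by omega), mul_zero]
  · intro h; exact absurd (Finset.mem_univ _) h

/-- a matrix that commutes with the Jacobi matrix and has the first basis vector as an eigenvector is
a scalar -/
theorem scalar_of_commute (a : R) (z : Fin g) (hz : (z : ℕ) = 0) (A : Matrix (Fin g) (Fin g) R)
    (hA : A * jac a = jac a * A) (hz2 : ∀ i, i ≠ z → A i z = 0) : A = A z z • 1 := by
  set B := A - A z z • 1 with hB
  have hcomm : B * jac a = jac a * B := by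
    rw [hB, sub_mul, mul_sub, hA, smul_mul_assoc, mul_smul_comm, one_mul, mul_one]
  have hB0 : ∀ i, B i z = 0 := by
    intro i
    by_cases hi : i = z
    · rw [hB, hi]; simp
    · rw [hB]; simp [hz2 i hi, Matrix.one_apply_ne hi]
  have hpow : ∀ k : ℕ, B * jac a ^ k = jac a ^ k * B := by
    intro k
    exact (Commute.pow_right hcomm k)
  have hBk : ∀ (k : ℕ) (i : Fin g), ∑ j, B i j * (jac a ^ k) j z = 0 := by
    intro k i
    rw [← Matrix.mul_apply, hpow, Matrix.mul_apply]
    exact Finset.sum_eq_zero fun j _ => by rw [hB0, mul_zero]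
  have hBz : ∀ (k : ℕ) (j : Fin g), (j : ℕ) = k → ∀ i, B i j = 0 := by
    intro k
    induction k using Nat.strong_induction_on with
    | _ k ih =>
      intro j hj i
      have h1 := hBk k i
      rw [Finset.sum_eq_single j, jac_pow_diag a z hz _ _ hj, mul_one] at h1
      · exact h1
      · intro l _ hl
        have hlk : (l : ℕ) ≠ k := fun h3 => hl (Fin.ext (by omega))
        by_cases hl2 : (l : ℕ) < k
        · rw [ih l hl2 l rfl i, zero_mul]
        · rw [jac_pow_far a z hz _ _ (by omega), mul_zero]
      · intro h; exact absurd (Finset.mem_univ _) h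
  have : B = 0 := by
    ext i j
    exact hBz j j rfl i
  rw [hB, sub_eq_zero] at this
  exact this

/-- if an integral matrix commutes with the Jacobi matrix with an irrational entry then it is a
scalar -/
theorem scalar_of_irrational {α : R} (hα : ∀ a b : ℤ, (a : R) * α + b = 0 → a = 0)
    (hR : ∀ b : ℤ, (b : R) = 0 → b = 0)
    (z : Fin g) (hz : (z : ℕ) = 0) (A : Matrix (Fin g) (Fin g) ℤ)
    (hA : (A.map (Int.cast : ℤ → R)) * jac α = jac α * (A.map (Int.cast : ℤ → R))) :
    A = A z z • 1 := by
  -- the entries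
  have hent : ∀ i j : Fin g, ((if j = z then A i z else 0) - (if i = z then A z j else 0) : ℤ) * α +
      (((A * jac 0 - jac 0 * A : Matrix (Fin g) (Fin g) ℤ) i j : ℤ) : R) = 0 := by
    intro i j
    have hj : (jac α : Matrix (Fin g) (Fin g) R) =
        α • Matrix.single z z 1 + (jac (0 : ℤ)).map (Int.cast : ℤ → R) := by
      ext i j
      rw [Matrix.add_apply, Matrix.smul_apply, Matrix.map_apply, smul_eq_mul]
      unfold jac
      by_cases h : (i : ℕ) = 0 ∧ (j : ℕ) = 0
      · have h1 : i = z := Fin.ext (by omega)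
        have h2 : j = z := Fin.ext (by omega)
        rw [if_pos h, if_pos h, h1, h2]
        simp
      · rw [if_neg h, if_neg h, Matrix.single_apply_of_ne]
        · split_ifs <;> simp
        · rintro ⟨h1, h2⟩
          apply h
          rw [← h1, ← h2]
          exact ⟨hz, hz⟩
    have h1 := congrFun (congrFun hA i) j
    rw [hj, mul_add, add_mul, Matrix.add_apply, Matrix.add_apply, mul_smul_comm, smul_mul_assoc,
      Matrix.smul_apply, Matrix.smul_apply, smul_eq_mul, smul_eq_mul] at h1
    have h2 : (A.map (Int.cast : ℤ → R) * Matrix.single z z 1 : Matrix (Fin g) (Fin g) R) i j =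
        ((if j = z then A i z else 0 : ℤ) : R) := by
      by_cases hjz : j = z
      · rw [if_pos hjz, hjz, Matrix.mul_single_apply_same, mul_one, Matrix.map_apply]
      · rw [if_neg hjz, Matrix.mul_single_apply_of_ne _ _ _ _ _ hjz, Int.cast_zero]
    have h3 : (Matrix.single z z 1 * A.map (Int.cast : ℤ → R) : Matrix (Fin g) (Fin g) R) i j =
        ((if i = z then A z j else 0 : ℤ) : R) := by
      by_cases hiz : i = z
      · rw [if_pos hiz, hiz, Matrix.single_mul_apply_same, one_mul, Matrix.map_apply]
      · rw [if_neg hiz, Matrix.single_mul_apply_of_ne _ _ _ _ _ hiz, Int.cast_zero]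
    have h4 : (A.map (Int.cast : ℤ → R) * (jac (0 : ℤ)).map (Int.cast : ℤ → R) :
        Matrix (Fin g) (Fin g) R) i j =
        (((A * jac 0 : Matrix (Fin g) (Fin g) ℤ) i j : ℤ) : R) := by
      rw [Matrix.mul_apply, Matrix.mul_apply]
      push_cast
      rfl
    have h5 : ((jac (0 : ℤ)).map (Int.cast : ℤ → R) * A.map (Int.cast : ℤ → R) :
        Matrix (Fin g) (Fin g) R) i j =
        (((jac 0 * A : Matrix (Fin g) (Fin g) ℤ) i j : ℤ) : R) := by
      rw [Matrix.mul_apply, Matrix.mul_apply]
      push_cast
      rfl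
    rw [h2, h3, h4, h5] at h1
    rw [Matrix.sub_apply, Int.cast_sub, Int.cast_sub]
    linear_combination h1
  have hcol : ∀ i, i ≠ z → A i z = 0 := by
    intro i hi
    have := hα _ _ (hent i z)
    rw [if_pos rfl, if_neg hi, sub_zero] at this
    exact this
  have hcomm : A * jac 0 = jac 0 * A := by
    rw [← sub_eq_zero]
    ext i j
    have h1 := hent i j
    have h2 := hα _ _ h1
    rw [h2, Int.cast_zero, zero_mul, zero_add] at h1
    exact hR _ h1
  exact scalar_of_commute 0 z hz A hcomm hcol

end jac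

section roots

/-- a Tate module element without torsion in the multiplicative group of an algebraically closed
field -/
theorem exists_tate {p : ℕ} [Fact p.Prime] (F : Type) [Field F] [IsAlgClosed F] [CharZero F] :
    ∃ t : TateModule p (Additive Fˣ), ∀ a : ℤ_[p], a • t = 0 → a = 0 := by
  have hp : p.Prime := Fact.out
  have : NeZero ((p : ℕ) : F) := ⟨Nat.cast_ne_zero.2 hp.ne_zero⟩
  obtain ⟨ζ, hζ⟩ := HasEnoughRootsOfUnity.exists_primitiveRoot F p
  have hroot : ∀ u : Fˣ, ∃ v : Fˣ, v ^ p = u := by
    intro u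
    obtain ⟨v, hv⟩ := IsAlgClosed.exists_pow_nat_eq (u : F) hp.pos
    have hv0 : v ≠ 0 := by
      rintro rfl
      rw [zero_pow hp.ne_zero] at hv
      exact u.ne_zero hv.symm
    exact ⟨Units.mk0 v hv0, Units.ext (by simpa using hv)⟩
  choose r hr using hroot
  have hζ0 : ζ ≠ 0 := hζ.ne_zero hp.ne_zero
  let u : ℕ → Fˣ := fun n => Nat.rec (Units.mk0 ζ hζ0) (fun _ v => r v) n
  have hu : ∀ n, u (n + 1) ^ p = u n := fun n => hr _
  let x : ℕ → Additive Fˣ := fun n => match n with
    | 0 => 0
    | n + 1 => Additive.ofMul (u n)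
  have hx : ∀ n, p • x (n + 1) = x n := by
    intro n
    cases n with
    | zero =>
      show Additive.ofMul (u 0 ^ p) = Additive.ofMul 1
      congr 1
      exact Units.ext (by show ζ ^ p = 1; exact hζ.pow_eq_one)
    | succ n =>
      show Additive.ofMul (u (n + 1) ^ p) = Additive.ofMul (u n)
      rw [hu]
  refine ⟨⟨x, rfl, hx⟩, fun a ha => ?_⟩
  have hx1 : x 1 ≠ 0 := by
    intro h
    have h1 : (u 0 : Fˣ) = 1 := h
    have h2 : ζ = 1 := congrArg Units.val h1
    rw [h2] at hζ
    have := hζ.unique IsPrimitiveRoot.one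
    exact hp.one_lt.ne' this
  have hx2 : ∀ n, (p ^ n) • x (n + 1) = x 1 := by
    intro n
    induction n with
    | zero => simp
    | succ n ih => rw [pow_succ, mul_smul, hx (n + 1), ih]
  have hord : ∀ n, addOrderOf (x (n + 1)) = p ^ (n + 1) := by
    intro n
    apply addOrderOf_eq_prime_pow
    · rw [hx2]; exact hx1
    · rw [pow_succ', mul_smul, hx2, hx 0]
  refine PadicInt.ext_of_toZModPow.1 fun n => ?_
  cases n with
  | zero => exact Subsingleton.elim (α := ZMod 1) _ _
  | succ n =>
    have h1 : res a (n + 1) • x (n + 1) = 0 := by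
      have := congrArg (fun y : TateModule p (Additive Fˣ) => y.seq (n + 1)) ha
      exact this
    rw [← addOrderOf_dvd_iff_nsmul_eq_zero, hord] at h1
    rw [map_zero, ← res_cast a (n + 1), (ZMod.natCast_eq_zero_iff _ _).2 h1]

end roots

end Pool.Agent.R931.TM
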