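import Pool.Agent.R931.TM.Chi

/-!
# Independent Galois endomorphisms
-/

set_option autoImplicit false
set_option linter.unusedSectionVars false

namespace Pool.Agent.R931.TM

open scoped TensorProduct

variable {p : ℕ} [Fact p.Prime] {g : ℕ} {X : Type} [AddCommGroup X]

theorem linearIndependent_tmul {T : Type} [AddCommGroup T] [Module ℤ_[p] T] {ι : Type}
    {v : ι → T} (hv : LinearIndependent ℤ_[p] v) :
    LinearIndependent ℚ_[p] (fun i => (1 : ℚ_[p]) ⊗ₜ[ℤ_[p]] v i) := by
  have h1 : IsLocalizedModule (nonZeroDivisors ℤ_[p]) (TensorProduct.mk ℤ_[p] ℚ_[p] T 1) :=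
    (isLocalizedModule_iff_isBaseChange (nonZeroDivisors ℤ_[p]) ℚ_[p] _).2
      (TensorProduct.isBaseChange ℤ_[p] T ℚ_[p])
  exact LinearIndependent.of_isLocalizedModule ℚ_[p] (nonZeroDivisors ℤ_[p])
    (TensorProduct.mk ℤ_[p] ℚ_[p] T 1) hv

/-- the independent endomorphisms of `V_p` given by the powers of a Jacobi matrix -/
theorem exists_endos {π : X} {κ : ℤ_[p] →+ X} (hi : Indep π κ) (α : ℤ_[p]) (Q : Fin g → Fin g → X)
    (hQ : Q = per π κ (jac α)) (z : Fin g) (hz : (z : ℕ) = 0)
    (t : TateModule p X) (ht : ∀ a : ℤ_[p], a • t = 0 → a = 0) :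
    ∃ e : Fin g → Module.End ℚ_[p] (RationalTateModule p (TorusQuotient Q)),
      (∀ (k : Fin g) (β : X →+ X) (hβ : ∀ i j, β (Q i j) = Q i j), (∀ s, β (κ s) = κ s) →
        e k ∘ₗ RationalTateModule.map (p := p) (quotMap Q β hβ) =
          RationalTateModule.map (p := p) (quotMap Q β hβ) ∘ₗ e k) ∧
      LinearIndependent ℚ_[p] e := by
  subst hQ
  have hcomm : ∀ k : ℕ, (jac α : Matrix (Fin g) (Fin g) ℤ_[p]) ^ k * jac α = jac α * jac α ^ k :=
    fun k => (Commute.pow_self (jac α) k)
  refine ⟨fun k => (phi hi (hcomm k)).baseChange ℚ_[p], ?_, ?_⟩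
  · intro k β hβ hκ
    have h1 : (phi hi (hcomm k)) ∘ₗ (TateModule.map (quotMap _ β hβ)) =
        (TateModule.map (quotMap _ β hβ)) ∘ₗ (phi hi (hcomm k)) :=
      LinearMap.ext fun x => phi_comm hi (hcomm k) β hκ hβ x
    have h2 := congrArg (LinearMap.baseChange ℚ_[p]) h1
    rw [LinearMap.baseChange_comp, LinearMap.baseChange_comp] at h2
    exact h2
  · rw [Fintype.linearIndependent_iff]
    intro c hc
    apply jac_indep (algebraMap ℤ_[p] ℚ_[p] α) z hz
    have hv := linearIndependent_tmul (inc_indep hi (jac α : Matrix (Fin g) (Fin g) ℤ_[p]) t ht)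
    rw [Fintype.linearIndependent_iff] at hv
    apply hv
    have hc' : ∑ i : Fin g, c i • LinearMap.baseChange ℚ_[p] (phi hi (hcomm i)) = 0 := hc
    have h1 := congrArg (fun f => f ((1 : ℚ_[p]) ⊗ₜ[ℤ_[p]] inc (per π κ (jac α)) z t)) hc'
    simp only [LinearMap.sum_apply, LinearMap.smul_apply, LinearMap.baseChange_tmul,
      LinearMap.zero_apply, phi_inc] at h1
    rw [← h1]
    have hmap : ∀ (k : ℕ) (i j : Fin g), (jac (algebraMap ℤ_[p] ℚ_[p] α) ^ k) i j =
        algebraMap ℤ_[p] ℚ_[p] ((jac α ^ k) i j) := by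
      intro k i j
      have h2 : jac (algebraMap ℤ_[p] ℚ_[p] α) = (jac α : Matrix (Fin g) (Fin g) ℤ_[p]).map
          (algebraMap ℤ_[p] ℚ_[p]) := by
        ext i j
        rw [Matrix.map_apply]
        unfold jac
        split_ifs <;> simp
      rw [h2]
      have h3 := congrArg (fun B : Matrix (Fin g) (Fin g) ℚ_[p] => B i j)
        (map_pow ((algebraMap ℤ_[p] ℚ_[p]).mapMatrix) (jac α : Matrix (Fin g) (Fin g) ℤ_[p]) k)
      exact h3.symm
    simp only [Finset.sum_smul, TensorProduct.tmul_sum, Finset.smul_sum]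
    rw [Finset.sum_comm]
    refine Finset.sum_congr rfl fun k _ => Finset.sum_congr rfl fun i _ => ?_
    rw [hmap, TensorProduct.tmul_smul, mul_smul, algebraMap_smul]

/-- two members of an independent family are not multiples of one vector -/
theorem not_both_multiples {k V ι : Type} [Field k] [AddCommMonoid V] [Module k V] {e : ι → V}
    (he : LinearIndependent k e) {i j : ι} (hij : i ≠ j) (v : V) (c d : k) (hi : e i = c • v)
    (hj : e j = d • v) : False := by
  have hinj : Function.Injective (Finsupp.linearCombination k e) := he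
  have h : (Finsupp.single i d : ι →₀ k) = Finsupp.single j c := by
    apply hinj
    rw [Finsupp.linearCombination_single, Finsupp.linearCombination_single, hi, hj,
      smul_smul, smul_smul, mul_comm]
  have h1 := DFunLike.congr_fun h i
  rw [Finsupp.single_eq_same, Finsupp.single_eq_of_ne hij] at h1
  have h2 : (Finsupp.single j 1 : ι →₀ k) = 0 := by
    apply hinj
    rw [Finsupp.linearCombination_single, one_smul, map_zero, hj, h1]
    exact zero_smul _ _
  rw [Finsupp.single_eq_zero] at h2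
  exact one_ne_zero h2

/-- integral matrices that preserve the lattice commute with `S` -/
theorem commute_of_stable {π : X} {κ : ℤ_[p] →+ X} (hi : Indep π κ)
    (S : Matrix (Fin g) (Fin g) ℤ_[p]) (A : Matrix (Fin g) (Fin g) ℤ)
    (h : ∀ y ∈ lattice (per π κ S), torusEnd X A y ∈ lattice (per π κ S)) :
    castM A * S = S * castM A := by
  rw [← sub_eq_zero]
  ext i j
  obtain ⟨n, hn⟩ := h _ ⟨Pi.single j 1, rfl⟩
  rw [torusEnd_period] at hn
  have h1 := congrFun hn i
  rw [Pi.add_apply, periodMap_per, periodMap_per, kap_eq] at h1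
  have h2 : (n i - (A.mulVec (Pi.single j 1)) i) • π +
      κ (S.mulVec (fun j => (n j : ℤ_[p])) i - S.mulVec (fun k => ((A.mulVec (Pi.single j 1)) k : ℤ_[p])) i -
        (castM A * S - S * castM A).mulVec (fun k => (((Pi.single j 1 : Fin g → ℤ) k : ℤ) : ℤ_[p])) i) = 0 := by
    rw [map_sub, map_sub, sub_smul]
    rw [← sub_eq_zero] at h1
    rw [← h1]
    abel
  obtain ⟨h3, h4⟩ := hi _ _ h2
  -- all coordinates of `n` agree
  have h5 : ∀ k, n k = (A.mulVec (Pi.single j 1)) k := by
    intro k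
    have h1 := congrFun hn k
    rw [Pi.add_apply, periodMap_per, periodMap_per, kap_eq] at h1
    have h2 : (n k - (A.mulVec (Pi.single j 1)) k) • π +
        κ (S.mulVec (fun j => (n j : ℤ_[p])) k -
          S.mulVec (fun k => ((A.mulVec (Pi.single j 1)) k : ℤ_[p])) k -
          (castM A * S - S * castM A).mulVec
            (fun k => (((Pi.single j 1 : Fin g → ℤ) k : ℤ) : ℤ_[p])) k) = 0 := by
      rw [map_sub, map_sub, sub_smul]
      rw [← sub_eq_zero] at h1
      rw [← h1]
      abel
    exact sub_eq_zero.1 (hi _ _ h2).1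
  have h6 : (fun k => (n k : ℤ_[p])) = fun k => ((A.mulVec (Pi.single j 1)) k : ℤ_[p]) :=
    funext fun k => by rw [h5]
  rw [h6, sub_self, zero_sub, neg_eq_zero] at h4
  have h7 : (fun k => (((Pi.single j 1 : Fin g → ℤ) k : ℤ) : ℤ_[p])) = Pi.single j 1 := by
    ext k
    by_cases hk : k = j
    · subst hk; simp
    · rw [Pi.single_eq_of_ne hk, Pi.single_eq_of_ne hk, Int.cast_zero]
  rw [h7, Matrix.mulVec_single_one] at h4
  exact h4

end Pool.Agent.R931.TM
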