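import Pool.Agent.R931.TM.Basic

/-!
# Galois endomorphisms of the Tate module of a quotient of a torus by a lattice

`X` is an abelian group (the multiplicative group of a field, written additively).
-/

set_option autoImplicit false
set_option linter.unusedSectionVars false

namespace Pool.Agent.R931.TM

open scoped TensorProduct
open TateModule

variable {p : ℕ} [Fact p.Prime] {g : ℕ} {X : Type} [AddCommGroup X]

/-- The homomorphism `ℤ ^ g → X ^ g` given by the matrix `Q` of periods. -/
def periodMap (Q : Fin g → Fin g → X) : (Fin g → ℤ) →+ (Fin g → X) where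
  toFun m i := ∑ j, m j • Q i j
  map_zero' := by ext i; simp
  map_add' m m' := by ext i; simp [add_smul, Finset.sum_add_distrib]

/-- The lattice generated by the columns of `Q`. -/
def lattice (Q : Fin g → Fin g → X) : AddSubgroup (Fin g → X) := (periodMap Q).range

/-- The quotient of the torus `X ^ g` by the lattice generated by the columns of `Q`. -/
def TorusQuotient (Q : Fin g → Fin g → X) : Type := (Fin g → X) ⧸ lattice Q

/-- the quotient group -/
instance instACG (Q : Fin g → Fin g → X) : AddCommGroup (TorusQuotient Q) :=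
  QuotientAddGroup.Quotient.addCommGroup (lattice Q)

/-- The projection of the torus `X ^ g` to its quotient. -/
def proj (Q : Fin g → Fin g → X) : (Fin g → X) →+ TorusQuotient Q :=
  QuotientAddGroup.mk' (lattice Q)

theorem proj_surjective (Q : Fin g → Fin g → X) : Function.Surjective (proj Q) :=
  QuotientAddGroup.mk'_surjective _

theorem proj_eq_zero {Q : Fin g → Fin g → X} {y : Fin g → X} :
    proj Q y = 0 ↔ ∃ m, periodMap Q m = y :=
  QuotientAddGroup.eq_zero_iff y

theorem proj_eq {Q : Fin g → Fin g → X} {y y' : Fin g → X} :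
    proj Q y = proj Q y' ↔ ∃ m, periodMap Q m = y' - y := by
  rw [← proj_eq_zero, map_sub, sub_eq_zero, eq_comm]

/-- The homomorphism of the quotient induced by a homomorphism of the torus `X ^ g` which preserves
the lattice. -/
def descend (Q : Fin g → Fin g → X) (f : (Fin g → X) →+ (Fin g → X))
    (hf : ∀ y ∈ lattice Q, f y ∈ lattice Q) :
    TorusQuotient Q →+ TorusQuotient Q :=
  QuotientAddGroup.map _ _ f hf

theorem descend_proj (Q : Fin g → Fin g → X) (f : (Fin g → X) →+ (Fin g → X))
    (hf : ∀ y ∈ lattice Q, f y ∈ lattice Q) (y : Fin g → X) :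
    descend Q f hf (proj Q y) = proj Q (f y) := rfl

/-- The endomorphism of the torus `X ^ g` given by an integral matrix. -/
def torusEnd (X : Type) [AddCommGroup X] {g : ℕ} (A : Matrix (Fin g) (Fin g) ℤ) :
    (Fin g → X) →+ (Fin g → X) where
  toFun y i := ∑ j, A i j • y j
  map_zero' := by ext i; simp
  map_add' m m' := by ext i; simp [Finset.sum_add_distrib]

theorem periodMap_apply (Q : Fin g → Fin g → X) (m : Fin g → ℤ) (i : Fin g) :
    periodMap Q m i = ∑ j, m j • Q i j := rfl

theorem torusEnd_apply (A : Matrix (Fin g) (Fin g) ℤ) (y : Fin g → X) (i : Fin g) :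
    torusEnd X A y i = ∑ j, A i j • y j := rfl

/-- the periods `δ i j π + κ (S i j)` -/
noncomputable def per (π : X) (κ : ℤ_[p] →+ X) (S : Matrix (Fin g) (Fin g) ℤ_[p]) (i j : Fin g) : X :=
  (if i = j then (1 : ℤ) else 0) • π + κ (S i j)

/-- the map `m ↦ (∑ j, m j κ (W i j)) i` -/
noncomputable def kap (κ : ℤ_[p] →+ X) (W : Matrix (Fin g) (Fin g) ℤ_[p]) : (Fin g → ℤ) →+ (Fin g → X) :=
  periodMap fun i j => κ (W i j)

theorem kap_apply (κ : ℤ_[p] →+ X) (W : Matrix (Fin g) (Fin g) ℤ_[p]) (m : Fin g → ℤ)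
    (i : Fin g) : kap κ W m i = ∑ j, m j • κ (W i j) := rfl

theorem kap_eq (κ : ℤ_[p] →+ X) (W : Matrix (Fin g) (Fin g) ℤ_[p]) (m : Fin g → ℤ)
    (i : Fin g) : kap κ W m i = κ (W.mulVec (fun j => (m j : ℤ_[p])) i) := by
  rw [kap_apply, Matrix.mulVec, dotProduct, map_sum]
  refine Finset.sum_congr rfl fun j _ => ?_
  rw [← map_zsmul, zsmul_eq_mul, mul_comm]

theorem kap_smul (κ : ℤ_[p] →+ X) (W : Matrix (Fin g) (Fin g) ℤ_[p]) (n : ℕ)
    (m : Fin g → ℤ) : kap κ ((n : ℤ_[p]) • W) m = n • kap κ W m := by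
  ext i
  rw [Pi.smul_apply, kap_eq, kap_eq, ← map_nsmul, Matrix.smul_mulVec, Pi.smul_apply, smul_eq_mul,
    nsmul_eq_mul]

theorem kap_sub (κ : ℤ_[p] →+ X) (W W' : Matrix (Fin g) (Fin g) ℤ_[p])
    (m : Fin g → ℤ) : kap κ (W - W') m = kap κ W m - kap κ W' m := by
  ext i
  rw [Pi.sub_apply, kap_eq, kap_eq, kap_eq, ← map_sub, Matrix.sub_mulVec, Pi.sub_apply]

/-- integral matrices over `ℤ_p` -/
noncomputable def castM (A : Matrix (Fin g) (Fin g) ℤ) : Matrix (Fin g) (Fin g) ℤ_[p] :=
  A.map (Int.cast)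

theorem periodMap_per (π : X) (κ : ℤ_[p] →+ X) (S : Matrix (Fin g) (Fin g) ℤ_[p])
    (m : Fin g → ℤ) (i : Fin g) :
    periodMap (per π κ S) m i = m i • π + κ (S.mulVec (fun j => (m j : ℤ_[p])) i) := by
  rw [← kap_eq, kap_apply, periodMap_apply]
  unfold per
  simp only [smul_add, Finset.sum_add_distrib]
  congr 1
  rw [Finset.sum_eq_single i]
  · simp
  · intro j _ hj
    rw [if_neg (Ne.symm hj), zero_smul, smul_zero]
  · intro h
    exact absurd (Finset.mem_univ i) h

theorem torusEnd_period (π : X) (κ : ℤ_[p] →+ X) (S : Matrix (Fin g) (Fin g) ℤ_[p])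
    (D : Matrix (Fin g) (Fin g) ℤ) (m : Fin g → ℤ) :
    torusEnd X D (periodMap (per π κ S) m) =
      periodMap (per π κ S) (D.mulVec m) + kap κ (castM D * S - S * castM D) m := by
  ext i
  rw [torusEnd_apply, Pi.add_apply, kap_eq, periodMap_per]
  simp only [periodMap_per, smul_add, Finset.sum_add_distrib]
  rw [add_assoc, ← map_add]
  congr 1
  · rw [Matrix.mulVec, dotProduct, Finset.sum_smul]
    exact Finset.sum_congr rfl fun j _ => by rw [mul_smul]
  · simp only [← map_zsmul]
    rw [← map_sum]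
    congr 1
    rw [Matrix.sub_mulVec, Pi.sub_apply, ← Matrix.mulVec_mulVec, ← Matrix.mulVec_mulVec]
    have h1 : (fun j => (((D.mulVec m) j : ℤ) : ℤ_[p])) =
        (castM D).mulVec (fun j => (m j : ℤ_[p])) := by
      ext j
      simp [Matrix.mulVec, dotProduct, castM]
    rw [h1, add_sub_cancel]
    simp only [Matrix.mulVec, dotProduct, castM, Matrix.map_apply, zsmul_eq_mul]

/-- independence of `π` and `κ` -/
def Indep (π : X) (κ : ℤ_[p] →+ X) : Prop := ∀ (k : ℤ) (s : ℤ_[p]), k • π + κ s = 0 → k = 0 ∧ s = 0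

theorem periodMap_inj {π : X} {κ : ℤ_[p] →+ X} (h : Indep π κ) (S : Matrix (Fin g) (Fin g) ℤ_[p]) :
    Function.Injective (periodMap (per π κ S)) := by
  rw [injective_iff_map_eq_zero]
  intro m hm
  ext i
  have h1 := congrFun hm i
  rw [periodMap_per] at h1
  exact (h _ _ h1).1

section endo

variable (π : X) (κ : ℤ_[p] →+ X) (S M : Matrix (Fin g) (Fin g) ℤ_[p])

/-- integral approximation of `M` -/
noncomputable def R (M : Matrix (Fin g) (Fin g) ℤ_[p]) (n : ℕ) : Matrix (Fin g) (Fin g) ℤ :=
  fun i j => (res (M i j) n : ℤ)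

theorem exists_res (a : ℤ_[p]) (n : ℕ) : ∃ e : ℤ_[p], a = (res a n : ℤ_[p]) + (p : ℤ_[p]) ^ n * e := by
  have h : PadicInt.toZModPow n (a - (res a n : ℤ_[p])) = 0 := by
    rw [map_sub, map_natCast, res_cast, sub_self]
  have h2 : a - (res a n : ℤ_[p]) ∈ RingHom.ker (PadicInt.toZModPow (p := p) n) := h
  rw [PadicInt.ker_toZModPow, Ideal.mem_span_singleton] at h2
  obtain ⟨e, he⟩ := h2
  exact ⟨e, by rw [← he]; ring⟩

/-- the remainder -/
noncomputable def E (M : Matrix (Fin g) (Fin g) ℤ_[p]) (n : ℕ) : Matrix (Fin g) (Fin g) ℤ_[p] :=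
  fun i j => (exists_res (M i j) n).choose

theorem M_eq (n : ℕ) : M = castM (R M n) + ((p ^ n : ℕ) : ℤ_[p]) • E M n := by
  ext i j
  have h := (exists_res (M i j) n).choose_spec
  rw [Matrix.add_apply, Matrix.smul_apply, castM, Matrix.map_apply, R, Nat.cast_pow, smul_eq_mul,
    Int.cast_natCast]
  exact h

/-- the matrix `W n` -/
noncomputable def W (n : ℕ) : Matrix (Fin g) (Fin g) ℤ_[p] := S * E M n - E M n * S

variable {S M}

theorem W_eq (h : M * S = S * M) (n : ℕ) :
    ((p ^ n : ℕ) : ℤ_[p]) • W S M n = castM (R M n) * S - S * castM (R M n) := by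
  have h1 := M_eq M n
  have h2 : castM (R M n) = M - ((p ^ n : ℕ) : ℤ_[p]) • E M n := by
    rw [eq_sub_iff_add_eq]
    exact h1.symm
  rw [h2, sub_mul, mul_sub, h, W, smul_sub, smul_mul_assoc, mul_smul_comm]
  abel

variable (S M)

/-- the lifted map at level `n` -/
noncomputable def lift (n : ℕ) : (Fin g → X) × (Fin g → ℤ) →+ (Fin g → X) :=
  ((torusEnd X (R M n)).comp (AddMonoidHom.fst _ _)) -
    ((kap κ (W S M n)).comp (AddMonoidHom.snd _ _))

theorem lift_apply (n : ℕ) (y : Fin g → X) (m : Fin g → ℤ) :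
    lift κ S M n (y, m) = torusEnd X (R M n) y - kap κ (W S M n) m := rfl

variable {S M}

theorem lift_period (h : M * S = S * M) (n : ℕ) (m : Fin g → ℤ) :
    lift κ S M n (periodMap (per π κ S) m, (p ^ n) • m) = periodMap (per π κ S) ((R M n).mulVec m) := by
  rw [lift_apply, torusEnd_period, map_nsmul, ← kap_smul κ, W_eq h]
  abel

variable {π κ}

open Classical in
/-- the map at level `n` -/
noncomputable def lev (π : X) (κ : ℤ_[p] →+ X) (S M : Matrix (Fin g) (Fin g) ℤ_[p]) (n : ℕ)
    (x : TorusQuotient (per π κ S)) : TorusQuotient (per π κ S) :=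
  if h : ∃ ym : (Fin g → X) × (Fin g → ℤ),
      proj (per π κ S) ym.1 = x ∧ (p ^ n) • ym.1 = periodMap (per π κ S) ym.2 then
    proj (per π κ S) (lift κ S M n h.choose) else 0

theorem lev_eq (hi : Indep π κ) (h : M * S = S * M) (n : ℕ) (y : Fin g → X) (m : Fin g → ℤ)
    (hy : (p ^ n) • y = periodMap (per π κ S) m) :
    lev π κ S M n (proj (per π κ S) y) = proj (per π κ S) (lift κ S M n (y, m)) := by
  have hex : ∃ ym : (Fin g → X) × (Fin g → ℤ),
      proj (per π κ S) ym.1 = proj (per π κ S) y ∧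
        (p ^ n) • ym.1 = periodMap (per π κ S) ym.2 := ⟨(y, m), rfl, hy⟩
  unfold lev
  rw [dif_pos hex]
  obtain ⟨h1, h2⟩ := hex.choose_spec
  set ym := hex.choose
  rw [proj_eq] at h1
  obtain ⟨m', hm'⟩ := h1
  rw [proj_eq]
  have h3 : (y, m) - ym = (periodMap (per π κ S) m', (p ^ n) • m') := by
    refine Prod.ext ?_ ?_
    · rw [hm']
      rfl
    · apply periodMap_inj hi S
      show periodMap (per π κ S) (m - ym.2) = _
      rw [map_sub, map_nsmul, hm', ← hy, ← h2, smul_sub]
  refine ⟨(R M n).mulVec m', ?_⟩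
  rw [← lift_period π κ h, ← h3, map_sub]

theorem exists_lift (n : ℕ) (x : TorusQuotient (per π κ S)) (hx : (p ^ n) • x = 0) :
    ∃ (y : Fin g → X) (m : Fin g → ℤ), proj (per π κ S) y = x ∧
      (p ^ n) • y = periodMap (per π κ S) m := by
  obtain ⟨y, rfl⟩ := proj_surjective _ x
  rw [← map_nsmul, proj_eq_zero] at hx
  obtain ⟨m, hm⟩ := hx
  exact ⟨y, m, rfl, hm.symm⟩

/-- the endomorphism of the Tate module given by a matrix over `ℤ_p` that commutes with `S` -/
noncomputable def phi (hi : Indep π κ) (h : M * S = S * M) :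
    TateModule p (TorusQuotient (per π κ S)) →ₗ[ℤ_[p]] TateModule p (TorusQuotient (per π κ S)) :=
  mkEnd (lev π κ S M)
    (by
      intro n x x' hx hx'
      obtain ⟨y, m, rfl, hy⟩ := exists_lift n x hx
      obtain ⟨y', m', rfl, hy'⟩ := exists_lift n x' hx'
      rw [← map_add, lev_eq hi h n (y + y') (m + m')
        (by rw [smul_add, hy, hy', map_add]), lev_eq hi h n y m hy, lev_eq hi h n y' m' hy',
        ← map_add, ← map_add]
      rfl)
    (by
      intro n x hx
      obtain ⟨y, m, rfl, hy⟩ := exists_lift (n + 1) x hx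
      have hy2 : (p ^ n) • (p • y) = periodMap (per π κ S) m := by
        rw [← mul_smul, ← pow_succ, hy]
      rw [← map_nsmul, lev_eq hi h n (p • y) m hy2, lev_eq hi h (n + 1) y m hy, ← map_nsmul,
        proj_eq]
      -- the integral matrix `D` with `R (n + 1) = R n + p ^ n D`
      have hD : ∃ D : Matrix (Fin g) (Fin g) ℤ, R M (n + 1) = R M n + (p ^ n : ℤ) • D := by
        have hd : ∀ i j, ∃ d : ℤ, R M (n + 1) i j = R M n i j + (p ^ n : ℤ) * d := by
          intro i j
          have h1 : ((R M (n + 1) i j : ℤ) : ZMod (p ^ n)) = ((R M n i j : ℤ) : ZMod (p ^ n)) := by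
            unfold R
            rw [Int.cast_natCast, Int.cast_natCast, res_cast_succ, res_cast]
          rw [ZMod.intCast_eq_intCast_iff, Int.modEq_iff_dvd] at h1
          obtain ⟨d, hd⟩ := h1
          refine ⟨-d, ?_⟩
          have hd' : R M n i j - R M (n + 1) i j = (p ^ n : ℤ) * d := by
            rw [hd]; push_cast; ring
          linarith
        choose D hD using hd
        refine ⟨Matrix.of D, ?_⟩
        ext i j
        rw [Matrix.add_apply, Matrix.smul_apply, Matrix.of_apply, smul_eq_mul]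
        exact hD i j
      obtain ⟨D, hD⟩ := hD
      have hDc : (castM (R M (n + 1)) : Matrix (Fin g) (Fin g) ℤ_[p]) =
          castM (R M n) + ((p ^ n : ℕ) : ℤ_[p]) • castM D := by
        rw [hD]
        ext i j
        simp only [castM, Matrix.map_apply, Matrix.add_apply, Matrix.smul_apply, smul_eq_mul]
        push_cast
        ring
      have hW : ((p : ℕ) : ℤ_[p]) • W S M (n + 1) - W S M n = castM D * S - S * castM D := by
        have hp : ((p ^ n : ℕ) : ℤ_[p]) ≠ 0 := by
          rw [Nat.cast_ne_zero]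
          exact pow_ne_zero _ (Fact.out : p.Prime).ne_zero
        have h1 : ((p ^ n : ℕ) : ℤ_[p]) • (((p : ℕ) : ℤ_[p]) • W S M (n + 1) - W S M n) =
            ((p ^ n : ℕ) : ℤ_[p]) • (castM D * S - S * castM D) := by
          rw [smul_sub, ← mul_smul, ← Nat.cast_mul, ← pow_succ, W_eq h, W_eq h, hDc, add_mul, mul_add,
            smul_mul_assoc, mul_smul_comm, smul_sub]
          abel
        exact smul_right_injective _ hp h1
      refine ⟨-(D.mulVec m), ?_⟩
      have h5 : periodMap (per π κ S) (D.mulVec m) =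
          torusEnd X D (periodMap (per π κ S) m) - kap κ (castM D * S - S * castM D) m := by
        rw [torusEnd_period]; abel
      rw [map_neg, h5, ← hW, kap_sub, kap_smul κ, lift_apply, lift_apply, ← hy]
      have h6 : torusEnd X (R M (n + 1)) y = torusEnd X (R M n) y + (p ^ n) • torusEnd X D y := by
        ext i
        rw [Pi.add_apply, Pi.smul_apply, torusEnd_apply, torusEnd_apply, torusEnd_apply, hD,
          Finset.smul_sum, ← Finset.sum_add_distrib]
        refine Finset.sum_congr rfl fun j _ => ?_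
        rw [Matrix.add_apply, Matrix.smul_apply, smul_eq_mul, add_smul, mul_smul]
        congr 1
        rw [← Nat.cast_pow, natCast_zsmul]
      rw [h6, map_nsmul, map_nsmul, smul_sub, smul_add, ← mul_smul p (p ^ n), ← pow_succ']
      abel)

theorem phi_apply (hi : Indep π κ) (h : M * S = S * M)
    (x : TateModule p (TorusQuotient (per π κ S))) (n : ℕ) :
    (phi hi h x).seq n = lev π κ S M n (x.seq n) := rfl

/-- the embedding of the Tate module of `X` as the `j`-th coordinate -/
noncomputable def inc (Q : Fin g → Fin g → X) (j : Fin g) :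
    TateModule p X →ₗ[ℤ_[p]] TateModule p (TorusQuotient Q) :=
  TateModule.map ((proj Q).comp (AddMonoidHom.single (fun _ : Fin g => X) j))

theorem inc_apply (Q : Fin g → Fin g → X) (j : Fin g) (t : TateModule p X) (n : ℕ) :
    (inc Q j t).seq n = proj Q (Pi.single j (t.seq n)) := rfl

theorem coe_sum_apply {N : Type} [AddCommGroup N] {ι : Type} (s : Finset ι) (f : ι → TateModule p N)
    (n : ℕ) : (∑ i ∈ s, f i).seq n = ∑ i ∈ s, (f i).seq n := by
  classical
  induction s using Finset.induction_on with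
  | empty => rw [Finset.sum_empty, Finset.sum_empty]; rfl
  | insert a s ha ih =>
    rw [Finset.sum_insert ha, Finset.sum_insert ha, ← ih]
    rfl

theorem phi_inc (hi : Indep π κ) (h : M * S = S * M) (j : Fin g) (t : TateModule p X) :
    phi hi h (inc (per π κ S) j t) = ∑ i, M i j • inc (per π κ S) i t := by
  refine TateModule.ext' fun n => ?_
  rw [phi_apply, coe_sum_apply, inc_apply]
  have h1 : (p ^ n) • (Pi.single j (t.seq n) : Fin g → X) = periodMap (per π κ S) 0 := by
    rw [map_zero, ← Pi.single_smul, tors t n, Pi.single_zero]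
  rw [lev_eq hi h n _ 0 h1, lift_apply, map_zero, sub_zero]
  have h2 : torusEnd X (R M n) (Pi.single j (t.seq n)) = ∑ i, Pi.single i (res (M i j) n • t.seq n) := by
    ext i
    rw [torusEnd_apply, Finset.sum_apply, Finset.sum_eq_single j, Finset.sum_eq_single i]
    · rw [Pi.single_eq_same, Pi.single_eq_same]
      unfold R
      rw [natCast_zsmul]
    · intro b _ hb
      rw [Pi.single_eq_of_ne (Ne.symm hb)]
    · intro h; exact absurd (Finset.mem_univ _) h
    · intro b _ hb
      rw [Pi.single_eq_of_ne hb, smul_zero]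
    · intro h; exact absurd (Finset.mem_univ _) h
  rw [h2, map_sum]
  refine Finset.sum_congr rfl fun i _ => ?_
  rw [smul_seq, inc_apply, ← map_nsmul, Pi.single_smul]

/-- the elements `inc i t` are linearly independent if `t` is not a torsion element -/
theorem inc_indep (hi : Indep π κ) (S : Matrix (Fin g) (Fin g) ℤ_[p]) (t : TateModule p X)
    (ht : ∀ a : ℤ_[p], a • t = 0 → a = 0) :
    LinearIndependent ℤ_[p] fun i => inc (per π κ S) i t := by
  rw [Fintype.linearIndependent_iff]
  intro a ha i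
  refine ht _ (TateModule.ext' fun n => ?_)
  have h1 : (∑ i, a i • inc (per π κ S) i t).seq n = 0 := by rw [ha]; rfl
  rw [coe_sum_apply] at h1
  have h2 : ∀ i, (a i • inc (per π κ S) i t).seq n =
      proj (per π κ S) (Pi.single i (res (a i) n • t.seq n)) := by
    intro i
    rw [smul_seq, inc_apply, ← map_nsmul, Pi.single_smul]
  simp only [h2] at h1
  rw [← map_sum, proj_eq_zero] at h1
  obtain ⟨m, hm⟩ := h1
  have h3 : (p ^ n) • (∑ i, Pi.single i (res (a i) n • t.seq n) : Fin g → X) = 0 := by
    ext k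
    rw [Pi.smul_apply, Finset.sum_apply, Finset.sum_eq_single k]
    · rw [Pi.single_eq_same, smul_comm, tors t n, smul_zero]
      rfl
    · intro b _ hb
      rw [Pi.single_eq_of_ne (Ne.symm hb)]
    · intro h; exact absurd (Finset.mem_univ _) h
  rw [← hm, ← map_nsmul] at h3
  have h4 : (p ^ n) • m = 0 := periodMap_inj hi S (by rw [h3, map_zero])
  have h5 : m = 0 := by
    ext k
    have := congrFun h4 k
    rw [Pi.smul_apply, Pi.zero_apply, smul_eq_zero] at this
    rcases this with h | h
    · exact absurd h (pow_ne_zero _ (Fact.out : p.Prime).ne_zero)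
    · exact h
  rw [h5, map_zero] at hm
  have h6 := congrFun hm i
  rw [Finset.sum_apply, Finset.sum_eq_single i, Pi.single_eq_same] at h6
  · rw [smul_seq]
    exact h6.symm
  · intro b _ hb
    rw [Pi.single_eq_of_ne (Ne.symm hb)]
  · intro h; exact absurd (Finset.mem_univ _) h

/-- the homomorphism `X ^ g → X ^ g` given by a homomorphism `X → X` that fixes the periods preserves
the lattice -/
theorem compLeft_mem (Q : Fin g → Fin g → X) (α : X →+ X) (hα : ∀ i j, α (Q i j) = Q i j) :
    ∀ y ∈ lattice Q, (α.compLeft (Fin g)) y ∈ lattice Q := by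
  rintro _ ⟨m, rfl⟩
  refine ⟨m, ?_⟩
  ext i
  show _ = α (periodMap Q m i)
  rw [periodMap_apply, map_sum]
  exact Finset.sum_congr rfl fun j _ => by rw [map_zsmul, hα]

/-- the map induced on the quotient by an automorphism of `X` that fixes the periods -/
def quotMap (Q : Fin g → Fin g → X) (α : X →+ X) (hα : ∀ i j, α (Q i j) = Q i j) :
    TorusQuotient Q →+ TorusQuotient Q :=
  descend Q (α.compLeft (Fin g)) (compLeft_mem Q α hα)

theorem quotMap_mk (Q : Fin g → Fin g → X) (α : X →+ X) (hα : ∀ i j, α (Q i j) = Q i j)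
    (y : Fin g → X) : quotMap Q α hα (proj Q y) = proj Q (fun i => α (y i)) := rfl

theorem phi_comm (hi : Indep π κ) (h : M * S = S * M) (α : X →+ X)
    (hκ : ∀ s, α (κ s) = κ s) (hα : ∀ i j, α (per π κ S i j) = per π κ S i j)
    (x : TateModule p (TorusQuotient (per π κ S))) :
    phi hi h (TateModule.map (quotMap _ α hα) x) = TateModule.map (quotMap _ α hα) (phi hi h x) := by
  refine TateModule.ext' fun n => ?_
  rw [phi_apply, TateModule.map_seq, TateModule.map_seq, phi_apply]
  obtain ⟨y, m, hy1, hy2⟩ := exists_lift n (x.seq n) (tors x n)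
  rw [← hy1, lev_eq hi h n y m hy2, quotMap_mk, quotMap_mk]
  have h3 : (p ^ n) • (fun i => α (y i)) = periodMap (per π κ S) m := by
    ext i
    have h4 := congrArg α (congrFun hy2 i)
    rw [periodMap_apply, map_sum] at h4
    rw [periodMap_apply]
    simp only [map_zsmul, hα] at h4
    rw [← h4, Pi.smul_apply, Pi.smul_apply, map_nsmul]
  rw [lev_eq hi h n _ m h3]
  congr 1
  ext i
  rw [lift_apply, lift_apply, Pi.sub_apply, Pi.sub_apply, map_sub, torusEnd_apply, torusEnd_apply,
    kap_apply, map_sum, map_sum]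
  simp only [map_zsmul, hκ]

end endo

end Pool.Agent.R931.TM
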